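import Pool.Agent.V11223.YD.Time

/-!
# Young domination with latency `L`: constant-factor approximation with an `L`-independent exponent

The line counts (numbers of occupied vertices in each row and column) evolve, up to constant
factors, by a dynamics of two antitone profiles. For every set that fills the rectangle in `L`
steps, `2 ^ L` levels (value, number of lines) per direction, rounded to powers of two, together
with one base value per direction suffice, at a cost larger by a factor depending only on `L`.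
There are only polylogarithmically many such rounded tuples, and each is tested in a small
rectangle.
-/

namespace Pool.Agent.Results.MP_a6d740_lc.UniformExponent

open Pool.Agent.NPC Pool.Agent.V11223.YD Pool.Agent.NPC.V11223YD

theorem sz_mat_le (Z : Finset (ℕ × ℕ)) {a b : ℕ} (ha : 1 ≤ a) (hb : 1 ≤ b) :
    (bits (mat Z a b)).length + 1 ≤ 8 * (a * b) := by
  rw [bits_length]
  have h1 : ∀ row ∈ mat Z a b, sz row ≤ 4 * b + 1 := by
    intro row hrow
    unfold mat at hrow
    obtain ⟨x, _, rfl⟩ := List.mem_map.1 hrow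
    refine (sz_le_length_mul _ 3 fun c _ => sz_bool_le c).trans ?_
    simp
    omega
  have h2 := sz_le_length_mul _ _ h1
  rw [mat_length] at h2
  nlinarith

/-- There is an exponent `k` such that for every latency `L` there are a constant `C` and a
function `f` of the zero-set alone, computed by a Turing machine in at most `C (a b) ^ k` steps,
whose value is a list of at most `C (a b) ^ k` triples `(x, y, g)` such that the minimum of `n m`
and of the numbers `x m + y n + g` lies between `γ ^ L` and `C γ ^ L`. Moreover a Turing machine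
computes this number from `m`, `n` and the zero-set in at most `C (s + 1) ^ k` steps, where `s` is
the length of the input. -/
theorem result : ∃ k : ℕ, ∀ L : ℕ, ∃ C : ℕ, 1 ≤ C ∧
    ∃ f : List (List Bool) → List (ℕ × ℕ × ℕ),
      (∃ h : Turing.TM2ComputableInPolyTime (bits : List (List Bool) → List Bool)
          (bits : List (ℕ × ℕ × ℕ) → List Bool) f,
        ∀ (a b : ℕ) (Z : Finset (ℕ × ℕ)), 1 ≤ a → 1 ≤ b →
          h.time.eval (bits (mat Z a b)).length ≤ C * (a * b) ^ k ∧
          (f (mat Z a b)).length ≤ C * (a * b) ^ k) ∧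
      (∃ h : Turing.TM2ComputableInPolyTime
          (bits : ℕ × ℕ × List (List Bool) → List Bool) (bits : ℕ → List Bool)
          (fun x => evalMin x.1 x.2.1 (f x.2.2)), ∀ s, h.time.eval s ≤ C * (s + 1) ^ k) ∧
      ∀ (a b m n : ℕ) (Z : Finset (ℕ × ℕ)), IsZero Z → Z ⊆ Rect a b → a ≤ n → b ≤ m →
        gam L Z m n ≤ evalMin m n (f (mat Z a b)) ∧
        evalMin m n (f (mat Z a b)) ≤ C * gam L Z m n := by
  obtain ⟨k1, h1⟩ := param (F := fun p : (List Unit × List Unit × List Unit) ×
    List (List Bool) => outL p.1 p.2) (outL_poly (Poly.fst Poly.id) (Poly.snd Poly.id))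
  obtain ⟨k2, h2⟩ := param (F := fun p : (List Unit × List Unit × List Unit) ×
    (ℕ × ℕ × List (List Bool)) => evalMin p.2.1 p.2.2.1 (outL p.1 p.2.2.2))
    (evalMin_poly (Poly.fst (Poly.snd Poly.id)) (Poly.fst (Poly.snd (Poly.snd Poly.id)))
      (outL_poly (Poly.fst Poly.id) (Poly.snd (Poly.snd (Poly.snd Poly.id)))))
  refine ⟨k1 + k2 + 3, fun L => ?_⟩
  obtain ⟨p, C0, hC0, hcor⟩ := correct L
  obtain ⟨C1, t1, ht1⟩ := h1 p
  obtain ⟨C2, t2, ht2⟩ := h2 p
  set D := 4 * (p.1.length + 1) ^ 2 * 4 ^ 3 with hD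
  refine ⟨C0 + C1 * 8 ^ (k1 + k2 + 3) + C2 + D, by omega, fun M => outL p M,
    ⟨t1, ?_⟩, ⟨t2, ?_⟩, ?_⟩
  · intro a b Z ha hb
    have hab : 1 ≤ a * b := Nat.succ_le_of_lt (Nat.mul_pos ha hb)
    constructor
    · have e1 := ht1 (bits (mat Z a b)).length
      have e2 := sz_mat_le Z ha hb
      have e3 : ((bits (mat Z a b)).length + 1) ^ k1 ≤ (8 * (a * b)) ^ (k1 + k2 + 3) :=
        (Nat.pow_le_pow_left e2 _).trans (Nat.pow_le_pow_right (by omega) (by omega))
      rw [mul_pow] at e3
      have e4 := Nat.mul_le_mul_left C1 e3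
      have e5 : C1 * (8 ^ (k1 + k2 + 3) * (a * b) ^ (k1 + k2 + 3)) =
        C1 * 8 ^ (k1 + k2 + 3) * (a * b) ^ (k1 + k2 + 3) := by ring
      refine e1.trans (e4.trans (e5.le.trans (Nat.mul_le_mul_right _ (by omega))))
    · have e1 := outL_length_le p (mat Z a b)
      rw [mat_length, bM_mat Z b ha] at e1
      have e2 : (a + 1) * (b + 1) ≤ 4 * (a * b) := by nlinarith
      have e3 : ((a + 1) * (b + 1)) ^ 3 ≤ 4 ^ 3 * (a * b) ^ (k1 + k2 + 3) := by
        refine (Nat.pow_le_pow_left e2 3).trans ?_
        rw [mul_pow]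
        exact Nat.mul_le_mul_left _ (Nat.pow_le_pow_right hab (by omega))
      have e4 := Nat.mul_le_mul_left (4 * (p.1.length + 1) ^ 2) e3
      have e5 : 4 * (p.1.length + 1) ^ 2 * (4 ^ 3 * (a * b) ^ (k1 + k2 + 3)) =
        D * (a * b) ^ (k1 + k2 + 3) := by rw [hD]; ring
      exact e1.trans (e4.trans (e5.le.trans (Nat.mul_le_mul_right _ (by omega))))
  · intro s
    refine (ht2 s).trans ?_
    exact Nat.mul_le_mul (by omega) (Nat.pow_le_pow_right (by omega) (by omega))
  · intro a b m n Z hZ hab han hbm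
    obtain ⟨e1, e2⟩ := hcor a b m n Z hZ hab han hbm
    refine ⟨e1, e2.trans (Nat.mul_le_mul_right _ (by omega))⟩

end Pool.Agent.Results.MP_a6d740_lc.UniformExponent
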